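import Pool.Agent.Work.MP_8a5de9_co.Fl.Faces

namespace Pool.Agent.Results.MP_8a5de9_co.FlatPatches

open FP

/-- A single cell in an arrangement of `n` flat patches in general position in `ℝ^d`, each cut out
of a hyperplane by `m` polynomial inequalities of degree at most `b`, has `O(n^(d-1) α(n))` faces
on its boundary; `α(n)` is the least `k` with `n ≤ ack k k`. -/
theorem result (d b m : ℕ) (hd : 3 ≤ d) : ∃ C : ℕ, ∀ (n : ℕ)
    (g : Fin n → (Fin d → ℝ) →ᵃ[ℝ] ℝ) (q : Fin n → Fin m → MvPolynomial (Fin d) ℝ),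
    (∀ i l, (q i l).totalDegree ≤ b) → GenPos g q → ∀ p, (∀ i, p ∉ patch g q i) →
      (face g q '' frontier (cell g q p)).encard ≤
        (C * n ^ (d - 1) * (sInf {k | n ≤ ack k k} + 1) : ℕ) :=
  flat_cell d b m hd

end Pool.Agent.Results.MP_8a5de9_co.FlatPatches
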