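import Pool.Agent.Work.MP_8a5de9_co.LBLift

namespace Pool.Agent.Results.MP_8a5de9_co.LowerBound

open Pool.Agent.Work.MP_8a5de9_co

/-- For `d ≥ 2` there are `n` quadric patches in `ℝ^d` such that, after any sufficiently small
change of all coefficients, one cell of the arrangement has `Ω(n^(d-1) 2^α(n))` vertices on its
boundary. -/
theorem result (d : ℕ) (hd : 2 ≤ d) : ∃ K : ℕ, ∀ b, 2 ≤ b → ∀ n, 2 * d ≤ n →
    ∃ (P Q : Fin n → MvPolynomial (Fin d) ℝ) (z : Fin d → ℝ) (ε : ℝ), 0 < ε ∧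
      (∀ i, (P i).totalDegree ≤ 2 ∧ (Q i).totalDegree ≤ 2) ∧
      ∀ P' Q' : Fin n → MvPolynomial (Fin d) ℝ,
        (∀ i, Near b ε (P i) (P' i)) → (∀ i, Near b ε (Q i) (Q' i)) →
        (∀ i, IsProper (P' i) (Q' i)) ∧
        ∃ S : Finset (Fin d → ℝ), n ^ (d - 1) * 2 ^ invAck n ≤ K * S.card ∧
          ∀ x ∈ S, IsVertex P' Q' x ∧ x ∈ frontier (cell P' Q' z) := by
  obtain ⟨d, rfl⟩ : ∃ d', d = d' + 2 := ⟨d - 2, by omega⟩
  refine ⟨(2 * (d + 1)) ^ (d + 1) * 2 ^ (d + 10) * 4, fun b hb n hn => ?_⟩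
  obtain ⟨i, hi, hα⟩ := exists_level (d + 1) n (by omega) (by omega)
  set m := n / (d + 1) with hm
  have h1 : m * (d + 1) ≤ n := Nat.div_mul_le_self n (d + 1)
  have h2 : n < (d + 1) * (m + 1) := Nat.lt_mul_div_succ n (by omega)
  have h3 : 1 ≤ m := (Nat.one_le_div_iff (by omega)).2 (by omega)
  have h4 : m + d * m ≤ n := by nlinarith
  obtain ⟨Pl, cS, cB⟩ := exists_plane (n := n - d * m) (i := i) (by omega)
  obtain ⟨P, Q, z, hdeg, ε, hε, h⟩ := Pl.lift d m hb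
  have hcard : Fintype.card (Pl.Sym ⊕ Fin d × Fin m) = n := by
    rw [Fintype.card_sum, Fintype.card_prod, Fintype.card_fin, Fintype.card_fin, cS]
    omega
  let e := Fintype.equivFinOfCardEq hcard
  refine ⟨P ∘ e.symm, Q ∘ e.symm, z, ε, hε, fun i => hdeg _, fun P' Q' hP hQ => ?_⟩
  obtain ⟨g1, S, g2, g3⟩ := h (P' ∘ e) (Q' ∘ e) (fun i => by simpa using hP (e i))
    (fun i => by simpa using hQ (e i))
  refine ⟨fun i => by simpa using g1 (e.symm i), S, ?_, fun x hx => ⟨?_, ?_⟩⟩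
  · have k1 : n ≤ 2 * (d + 1) * m := by nlinarith
    have k2 : m * 2 ^ i ≤ 4 * Fintype.card Pl.Blk :=
      (Nat.mul_le_mul_right _ (by omega)).trans cB
    calc n ^ (d + 2 - 1) * 2 ^ invAck n
        ≤ (2 * (d + 1) * m) ^ (d + 1) * 2 ^ (i + (d + 10)) :=
          Nat.mul_le_mul (Nat.pow_le_pow_left k1 _) (Nat.pow_le_pow_right two_pos hα)
      _ = (2 * (d + 1)) ^ (d + 1) * 2 ^ (d + 10) * (m * 2 ^ i) * m ^ d := by
          rw [mul_pow, pow_add 2 i, pow_succ m]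
          ring
      _ ≤ (2 * (d + 1)) ^ (d + 1) * 2 ^ (d + 10) * (4 * Fintype.card Pl.Blk) * m ^ d := by
          gcongr
      _ = _ := by
          rw [g2]
          ring
  · obtain ⟨φ, f1, f2, f3, f4⟩ := (g3 x hx).1
    refine ⟨e ∘ φ, e.injective.comp f1, fun i => ?_, f3, f4⟩
    have := f2 (e.symm i)
    simp only [Function.comp, Equiv.apply_symm_apply, Set.mem_range] at this ⊢
    rw [this]
    exact exists_congr fun k => e.eq_symm_apply
  · have := (g3 x hx).2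
    unfold cell at this ⊢
    rwa [← e.surjective.iUnion_comp fun i => patch (P' i) (Q' i)]

end Pool.Agent.Results.MP_8a5de9_co.LowerBound
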