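import Pool.Agent.Work.MP_8a5de9_co_K.Main

namespace Pool.Agent.Results.MP_8a5de9_co.SingleCell

open CurK

/-- A single cell in an arrangement of `n` algebraic surface patches of bounded degree in general
position in `ℝ^d` has `O(n^(d-2) λ_s(n))` faces on its boundary, for a constant `s`. -/
theorem result (d m b : ℕ) (hd : 2 ≤ d) : ∃ s C : ℕ, ∀ (n : ℕ) (g : Arr d (Fin n) (Fin m)),
    (∀ i o, (g.poly i o).totalDegree ≤ b) → GenPos g → ∀ p, (∀ i, p ∉ patch g i) →
      (face g '' frontier (cell g p)).encard ≤ (C * n ^ (d - 2) * lam s n : ℕ) :=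
  single_cell d m b hd

end Pool.Agent.Results.MP_8a5de9_co.SingleCell
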